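import Mathlib
import Pool.Agent.T2H15.K3.F
set_option autoImplicit false

/-!
The 533-uniform map: checks, part 11.
-/

namespace Pool.Agent.T2H15.K3

open Pool.Agent.H549R3.Chk Pool.Agent.H549R3.M2 Pool.Agent.H549R3.M2.Fam
  Pool.Agent.H549R3.Check

theorem h33 : midB 533 53 125 301 4 vX vY 3 mkZ uXZ uYZ T (T.reverse ++ T.reverse) R33
    = true := by decide +kernel

theorem h34 : midB 533 53 125 301 4 vX vY 3 mkZ uXZ uYZ T (T.reverse ++ T.reverse) R34
    = true := by decide +kernel

theorem h35 : midB 533 53 125 301 4 vX vY 3 mkZ uXZ uYZ T (T.reverse ++ T.reverse) R35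
    = true := by decide +kernel

end Pool.Agent.T2H15.K3
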