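import Mathlib
import Pool.Agent.T2H15.K3.C0
import Pool.Agent.T2H15.K3.C1
import Pool.Agent.T2H15.K3.C2
import Pool.Agent.T2H15.K3.C3
import Pool.Agent.T2H15.K3.C4
import Pool.Agent.T2H15.K3.C5
import Pool.Agent.T2H15.K3.C6
import Pool.Agent.T2H15.K3.C7
import Pool.Agent.T2H15.K3.C8
import Pool.Agent.T2H15.K3.C9
import Pool.Agent.T2H15.K3.C10
import Pool.Agent.T2H15.K3.C11
import Pool.Agent.T2H15.K3.C12
import Pool.Agent.T2H15.K3.C13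
import Pool.Agent.T2H15.K3.C14
import Pool.Agent.T2H15.K3.C15
import Pool.Agent.T2H15.K3.C16
import Pool.Agent.T2H15.K3.C17
import Pool.Agent.T2H15.K3.C18
import Pool.Agent.T2H15.K3.C19
import Pool.Agent.T2H15.K3.C20
import Pool.Agent.T2H15.K3.C21
import Pool.Agent.T2H15.K3.C22
import Pool.Agent.T2H15.K3.C23
import Pool.Agent.T2H15.K3.C24
import Pool.Agent.T2H15.K3.C25
set_option autoImplicit false

/-!
The 533-uniform map: the certificate.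
-/

namespace Pool.Agent.T2H15.K3

open Pool.Agent.H549R3.Chk Pool.Agent.H549R3.M2 Pool.Agent.H549R3.M2.Fam
  Pool.Agent.H549R3.Check

theorem hmain (p : Row) (hp : p ∈ T) : ∃ T1, p ∈ T1 ∧ midB 533 53 125 301 4 vX vY 3 mkZ uXZ uYZ
    T (T.reverse ++ T.reverse) T1 = true := by
  rcases memT p hp with h | h | h | h | h | h | h | h | h | h | h | h | h | h | h | h | h | h | h | h | h | h | h | h | h | h | h | h | h | h | h | h | h | h | h | h | h | h | h | h | h | h | h | h | h | h | h | h | h | h | h | h | h | h | h | h | h | h | h | h | h | h | h | h | h | h | h | h | h | h | h | h | h | h | h | h | h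
  · exact ⟨R0, h, h0⟩
  · exact ⟨R1, h, h1⟩
  · exact ⟨R2, h, h2⟩
  · exact ⟨R3, h, h3⟩
  · exact ⟨R4, h, h4⟩
  · exact ⟨R5, h, h5⟩
  · exact ⟨R6, h, h6⟩
  · exact ⟨R7, h, h7⟩
  · exact ⟨R8, h, h8⟩
  · exact ⟨R9, h, h9⟩
  · exact ⟨R10, h, h10⟩
  · exact ⟨R11, h, h11⟩
  · exact ⟨R12, h, h12⟩
  · exact ⟨R13, h, h13⟩
  · exact ⟨R14, h, h14⟩
  · exact ⟨R15, h, h15⟩
  · exact ⟨R16, h, h16⟩
  · exact ⟨R17, h, h17⟩
  · exact ⟨R18, h, h18⟩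
  · exact ⟨R19, h, h19⟩
  · exact ⟨R20, h, h20⟩
  · exact ⟨R21, h, h21⟩
  · exact ⟨R22, h, h22⟩
  · exact ⟨R23, h, h23⟩
  · exact ⟨R24, h, h24⟩
  · exact ⟨R25, h, h25⟩
  · exact ⟨R26, h, h26⟩
  · exact ⟨R27, h, h27⟩
  · exact ⟨R28, h, h28⟩
  · exact ⟨R29, h, h29⟩
  · exact ⟨R30, h, h30⟩
  · exact ⟨R31, h, h31⟩
  · exact ⟨R32, h, h32⟩
  · exact ⟨R33, h, h33⟩
  · exact ⟨R34, h, h34⟩
  · exact ⟨R35, h, h35⟩
  · exact ⟨R36, h, h36⟩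
  · exact ⟨R37, h, h37⟩
  · exact ⟨R38, h, h38⟩
  · exact ⟨R39, h, h39⟩
  · exact ⟨R40, h, h40⟩
  · exact ⟨R41, h, h41⟩
  · exact ⟨R42, h, h42⟩
  · exact ⟨R43, h, h43⟩
  · exact ⟨R44, h, h44⟩
  · exact ⟨R45, h, h45⟩
  · exact ⟨R46, h, h46⟩
  · exact ⟨R47, h, h47⟩
  · exact ⟨R48, h, h48⟩
  · exact ⟨R49, h, h49⟩
  · exact ⟨R50, h, h50⟩
  · exact ⟨R51, h, h51⟩
  · exact ⟨R52, h, h52⟩
  · exact ⟨R53, h, h53⟩
  · exact ⟨R54, h, h54⟩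
  · exact ⟨R55, h, h55⟩
  · exact ⟨R56, h, h56⟩
  · exact ⟨R57, h, h57⟩
  · exact ⟨R58, h, h58⟩
  · exact ⟨R59, h, h59⟩
  · exact ⟨R60, h, h60⟩
  · exact ⟨R61, h, h61⟩
  · exact ⟨R62, h, h62⟩
  · exact ⟨R63, h, h63⟩
  · exact ⟨R64, h, h64⟩
  · exact ⟨R65, h, h65⟩
  · exact ⟨R66, h, h66⟩
  · exact ⟨R67, h, h67⟩
  · exact ⟨R68, h, h68⟩
  · exact ⟨R69, h, h69⟩
  · exact ⟨R70, h, h70⟩
  · exact ⟨R71, h, h71⟩
  · exact ⟨R72, h, h72⟩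
  · exact ⟨R73, h, h73⟩
  · exact ⟨R74, h, h74⟩
  · exact ⟨R75, h, h75⟩
  · exact ⟨R76, h, h76⟩

theorem all0 : AllGood M 4 3 mkZ uXZ uYZ mkT uT uT :=
  sound2 M okM 4 3 29 41 mkZ uXZ uYZ mkT uT uT (fun _ => rfl) (fun _ => rfl) T hk.1 hk.2 hT
    (Pool.Agent.H549R3.Check.allL_spec _ _ hrow) hmain

end Pool.Agent.T2H15.K3
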