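import Mathlib
import Pool.Agent.H549R3.M2Z
import Pool.Agent.T2H15.K3.All

set_option autoImplicit false

/-!
A ternary word without abelian squares of period at least four. The word over eight letters is the
one of `Pool.Agent.H549R3.M2.Final`.
-/

namespace Pool.Agent.T2H15.K3.Final

open Finset Pool.Agent.H549R3.Chk Pool.Agent.H549R3.M2 Pool.Agent.H549R3.M2.Fam
  Pool.Agent.H549R3.Check

/-- fixed point of the 51-uniform map -/
def z : ℕ → ℕ
  | 0 => 3
  | (n + 1) => M2Z.G (z ((n + 1) / 51)) ((n + 1) % 51)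
decreasing_by omega

theorem z_eq (n : ℕ) : z n = M2Z.G (z (n / 51)) (n % 51) := by
  cases n with
  | zero =>
    have h : M2Z.G 3 0 = 3 := by decide +kernel
    simp [z, h]
  | succ n => rw [z]

theorem z_lt (n : ℕ) : z n < 8 := by
  rw [z_eq]
  exact Nat.mod_lt _ (by norm_num)

theorem z_img (m r : ℕ) (hr : r < 51) : z (51 * m + r) = M2Z.G (z m) r := by
  rw [z_eq]
  have h1 : (51 * m + r) / 51 = m := by omega
  have h2 : (51 * m + r) % 51 = r := by omega
  rw [h1, h2]

theorem imgZ : M2Z.M.Img z z := ⟨z_lt, fun m r hr => z_img m r hr⟩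

/-- equal weights -/
def ev (a b : ℕ) : Bool := and (Nat.beq (vX a) (vX b)) (Nat.beq (vY a) (vY b))

theorem ev_spec (a b : ℕ) : (ev a b = true) = (vX a = vX b ∧ vY a = vY b) := by
  unfold ev
  rw [Bool.and_eq_true, bq, bq]

theorem adj1 : allB 8 (fun a => allB 50 fun r => not (ev (M2Z.G a r) (M2Z.G a (r + 1)))) = true := by
  decide +kernel

theorem adj2 : allB 8 (fun a => allB 8 fun b => or (ev a b)
    (not (ev (M2Z.G a 50) (M2Z.G b 0)))) = true := by
  decide +kernel

theorem adj (n : ℕ) : ev (z n) (z (n + 1)) = false := by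
  induction n using Nat.strong_induction_on with
  | _ n ih =>
    obtain ⟨m, r, hr, e⟩ : ∃ m r, r < 51 ∧ 51 * m + r = n :=
      ⟨n / 51, n % 51, Nat.mod_lt _ (by norm_num), Nat.div_add_mod _ _⟩
    by_cases h : r = 50
    · subst h
      have h1 : n + 1 = 51 * (m + 1) + 0 := by omega
      rw [h1, z_img _ 0 (by norm_num), ← e, z_img _ 50 (by norm_num)]
      have h2 := allB_spec _ _ (allB_spec _ _ adj2 (z m) (z_lt m)) (z (m + 1)) (z_lt _)
      have h3 := ih m (by omega)
      rw [h3] at h2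
      simpa using h2
    · have h1 : n + 1 = 51 * m + (r + 1) := by omega
      rw [h1, z_img _ (r + 1) (by omega), ← e, z_img _ r hr]
      have h2 := allB_spec _ _ (allB_spec _ _ adj1 (z m) (z_lt m)) r (by omega)
      simpa using h2

theorem adj' (n : ℕ) : ¬ (vX (z n) = vX (z (n + 1)) ∧ vY (z n) = vY (z (n + 1))) := by
  rw [← ev_spec, adj n]
  exact Bool.false_ne_true

theorem allZ (k : ℕ) (hk : k < 3) : AllGood M2Z.M 1 3 mkZ uXZ uYZ (mkZ k) (uXZ k) (uYZ k) := by
  have : k = 0 ∨ k = 1 ∨ k = 2 := by omega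
  rcases this with rfl | rfl | rfl
  · exact M2Z.all0
  · exact M2Z.all1
  · exact M2Z.all2

/-- no additive square of period one -/
theorem no1 (j : ℕ) : ¬ Tpl vX vY z (fun _ => true) (fun _ => 0) (fun _ => 0) j 1 := by
  rintro ⟨_, h1, h2⟩
  unfold V at h1 h2
  dsimp only at h1 h2
  have a1 := S_succ vX z j
  have a2 := S_succ vX z (j + 1)
  have b1 := S_succ vY z j
  have b2 := S_succ vY z (j + 1)
  apply adj' j
  rw [show j + 2 * 1 = j + 1 + 1 by ring] at h1 h2
  omega

/-- the word over eight letters realises no template -/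
theorem noZ (q : ℕ) : ∀ k < 3, ∀ j, 0 < q → ¬ Tpl vX vY z (mkZ k) (uXZ k) (uYZ k) j q := by
  induction q using Nat.strong_induction_on with
  | _ q ih =>
    intro k hk j hq h
    have hL : M2Z.M.L = 51 := rfl
    rcases descent M2Z.M M2Z.okM 1 3 mkZ uXZ uYZ (mkZ k) (uXZ k) (uYZ k) (allZ k hk) z z imgZ adj'
      j q hq h with ⟨j', q', hq', ht, he⟩ | ⟨k', hk', j', q', hq', ht, he⟩
    · rw [hL] at he
      by_cases h1 : q' = 1
      · subst h1
        exact no1 j' ht
      · exact ih q' (by omega) 0 (by norm_num) j' hq' ht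
    · rw [hL] at he
      exact ih q' (by omega) k' hk' j' hq' ht

/-- the word over three letters -/
def t (n : ℕ) : ℕ := Pool.Agent.T2H15.K3.G (z (n / 533)) (n % 533)

theorem imgT : Pool.Agent.T2H15.K3.M.Img z t := by
  refine ⟨z_lt, fun m r hr => ?_⟩
  have hr' : r < 533 := hr
  change t (533 * m + r) = Pool.Agent.T2H15.K3.G (z m) r
  unfold t
  have h1 : (533 * m + r) / 533 = m := by omega
  have h2 : (533 * m + r) % 533 = r := by omega
  rw [h1, h2]

theorem tcheck : allB 8 (fun a => allB 533 fun r => Nat.blt (Pool.Agent.T2H15.K3.G a r) 3) = true := by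
  decide +kernel

theorem t_lt (n : ℕ) : t n < 3 := by
  have h := allB_spec _ _ (allB_spec _ _ tcheck (z (n / 533)) (z_lt _)) (n % 533)
    (Nat.mod_lt _ (by norm_num))
  exact Nat.le_of_ble_eq_true h

/-- the smallest period excluded -/
def PP : ℕ := 4

theorem noT (q : ℕ) (hq : PP ≤ q) (j : ℕ) : ¬ Tpl tX tY t mkT uT uT j q := by
  intro h
  rcases descent Pool.Agent.T2H15.K3.M Pool.Agent.T2H15.K3.okM PP 3 mkZ uXZ uYZ mkT uT uT Pool.Agent.T2H15.K3.all0 z t imgT adj'
      j q hq h with ⟨j', q', hq', ht, _⟩ | ⟨k', hk', j', q', hq', ht, _⟩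
  · exact noZ q' 0 (by norm_num) j' hq' ht
  · exact noZ q' k' hk' j' hq' ht

/-- number of occurrences of a letter in a block -/
theorem S_block (c : ℕ → ℕ) (i n : ℕ) :
    S c t (i + n) = S c t i + ∑ k ∈ range n, c (t (i + k)) := by
  unfold S
  rw [Finset.sum_range_add]

/-- the ternary word -/
def w (n : ℕ) : Fin 3 := ⟨t n, t_lt n⟩

theorem cX_eq (n i : ℕ) : ∑ k ∈ range n, tX (t (i + k)) =
    ((range n).filter (fun k => w (i + k) = 0)).card := by
  rw [Finset.card_filter]
  apply Finset.sum_congr rfl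
  intro k _
  have h := t_lt (i + k)
  unfold w
  have h3 : t (i + k) = 0 ∨ t (i + k) = 1 ∨ t (i + k) = 2 := by omega
  rcases h3 with h4 | h4 | h4 <;> simp [Fin.ext_iff, h4, tX]

theorem cY_eq (n i : ℕ) : ∑ k ∈ range n, tY (t (i + k)) =
    ((range n).filter (fun k => w (i + k) = 0)).card +
      ((range n).filter (fun k => w (i + k) = 1)).card := by
  rw [Finset.card_filter, Finset.card_filter, ← Finset.sum_add_distrib]
  apply Finset.sum_congr rfl
  intro k _
  have h := t_lt (i + k)
  unfold w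
  have h3 : t (i + k) = 0 ∨ t (i + k) = 1 ∨ t (i + k) = 2 := by omega
  rcases h3 with h4 | h4 | h4 <;> simp [Fin.ext_iff, h4, tY]

theorem main : ∃ w : ℕ → Fin 3, ∀ i n : ℕ, PP ≤ n →
      ¬ (∀ a : Fin 3,
          ((Finset.range n).filter (fun k => w (i + k) = a)).card =
          ((Finset.range n).filter (fun k => w (i + n + k) = a)).card) := by
  refine ⟨w, fun i n hn h => ?_⟩
  apply noT n hn i
  have c1 := S_block tX i n
  have c2 := S_block tX (i + n) n
  have d1 := S_block tY i n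
  have d2 := S_block tY (i + n) n
  rw [cX_eq] at c1 c2
  rw [cY_eq] at d1 d2
  have h0 := h 0
  have h1 := h 1
  have e2 : i + n + n = i + 2 * n := by ring
  rw [e2] at c2 d2
  refine ⟨⟨rfl, rfl, rfl⟩, ?_, ?_⟩
  · unfold V uT
    omega
  · unfold V uT
    omega

end Pool.Agent.T2H15.K3.Final
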