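import Mathlib
import Pool.Agent.T2H15.K3.Final
set_option autoImplicit false

/-!
The abelian squares of period three in the ternary word: all six letters are equal.
-/

namespace Pool.Agent.T2H15.K3.Three

open Finset Pool.Agent.H549R3.Chk Pool.Agent.H549R3.M2 Pool.Agent.H549R3.M2.Fam
  Pool.Agent.H549R3.Check Pool.Agent.T2H15.K3.Final

/-- letter at position `i` of `G a` followed by `G b` -/
def h (a b i : ℕ) : ℕ :=
  bif Nat.blt i 533 then Pool.Agent.T2H15.K3.G a i else Pool.Agent.T2H15.K3.G b (i - 533)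

/-- six letters form no abelian square of period three, or are all equal -/
def six (x0 x1 x2 x3 x4 x5 : ℕ) : Bool :=
  or (not (and (Nat.beq (tX x0 + tX x1 + tX x2) (tX x3 + tX x4 + tX x5))
      (Nat.beq (tY x0 + tY x1 + tY x2) (tY x3 + tY x4 + tY x5))))
    (and (Nat.beq x1 x0) (and (Nat.beq x2 x0) (and (Nat.beq x3 x0)
      (and (Nat.beq x4 x0) (Nat.beq x5 x0)))))

theorem six_spec (x0 x1 x2 x3 x4 x5 : ℕ) (h : six x0 x1 x2 x3 x4 x5 = true)
    (hX : tX x0 + tX x1 + tX x2 = tX x3 + tX x4 + tX x5)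
    (hY : tY x0 + tY x1 + tY x2 = tY x3 + tY x4 + tY x5) :
    x1 = x0 ∧ x2 = x0 ∧ x3 = x0 ∧ x4 = x0 ∧ x5 = x0 := by
  unfold six at h
  rw [hX, hY] at h
  simp only [Nat.beq_refl, Bool.and_self, Bool.not_true, Bool.false_or, Bool.and_eq_true,
    Nat.beq_eq] at h
  exact h

theorem six_check : allB 8 (fun a => allB 8 fun b => allB 533 fun r =>
    six (h a b r) (h a b (r + 1)) (h a b (r + 2)) (h a b (r + 3)) (h a b (r + 4))
      (h a b (r + 5))) = true := by
  decide +kernel

theorem t_h (i j : ℕ) (hj : j < 6) :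
    t (i + j) = h (z (i / 533)) (z (i / 533 + 1)) (i % 533 + j) := by
  unfold t h
  by_cases hlt : i % 533 + j < 533
  · have h1 : (i + j) / 533 = i / 533 := by omega
    have h2 : (i + j) % 533 = i % 533 + j := by omega
    have h3 : Nat.blt (i % 533 + j) 533 = true := by
      rw [Nat.blt_eq]; exact hlt
    rw [h1, h2, h3, cond_true]
  · have h1 : (i + j) / 533 = i / 533 + 1 := by omega
    have h2 : (i + j) % 533 = i % 533 + j - 533 := by omega
    have h3 : Nat.blt (i % 533 + j) 533 = false := by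
      rw [← Bool.not_eq_true, Nat.blt_eq]; exact hlt
    rw [h1, h2, h3, cond_false]

theorem all_eq (i : ℕ)
    (hX : tX (t i) + tX (t (i + 1)) + tX (t (i + 2)) =
      tX (t (i + 3)) + tX (t (i + 4)) + tX (t (i + 5)))
    (hY : tY (t i) + tY (t (i + 1)) + tY (t (i + 2)) =
      tY (t (i + 3)) + tY (t (i + 4)) + tY (t (i + 5))) :
    t (i + 1) = t i ∧ t (i + 2) = t i ∧ t (i + 3) = t i ∧ t (i + 4) = t i ∧ t (i + 5) = t i := by
  apply six_spec _ _ _ _ _ _ _ hX hY
  have e0 := t_h i 0 (by norm_num)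
  rw [Nat.add_zero, Nat.add_zero] at e0
  rw [e0, t_h i 1 (by norm_num), t_h i 2 (by norm_num), t_h i 3 (by norm_num),
    t_h i 4 (by norm_num), t_h i 5 (by norm_num)]
  exact allB_spec _ _ (allB_spec _ _ (allB_spec _ _ six_check (z (i / 533)) (z_lt _))
    (z (i / 533 + 1)) (z_lt _)) (i % 533) (Nat.mod_lt _ (by norm_num))

theorem sums (i n : ℕ) (h : ∀ a : Fin 3,
      ((Finset.range n).filter (fun k => w (i + k) = a)).card =
      ((Finset.range n).filter (fun k => w (i + n + k) = a)).card) :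
    ∑ k ∈ range n, tX (t (i + k)) = ∑ k ∈ range n, tX (t (i + n + k)) ∧
    ∑ k ∈ range n, tY (t (i + k)) = ∑ k ∈ range n, tY (t (i + n + k)) := by
  rw [cX_eq, cX_eq, cY_eq, cY_eq]
  exact ⟨h 0, by rw [h 0, h 1]⟩

theorem long (i n : ℕ) (hn : 4 ≤ n) (h : ∀ a : Fin 3,
      ((Finset.range n).filter (fun k => w (i + k) = a)).card =
      ((Finset.range n).filter (fun k => w (i + n + k) = a)).card) : False := by
  obtain ⟨hX, hY⟩ := sums i n h
  apply noT n hn i
  have c1 := S_block tX i n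
  have c2 := S_block tX (i + n) n
  have d1 := S_block tY i n
  have d2 := S_block tY (i + n) n
  have e2 : i + n + n = i + 2 * n := by ring
  rw [e2] at c2 d2
  refine ⟨⟨rfl, rfl, rfl⟩, ?_, ?_⟩
  · unfold V uT
    omega
  · unfold V uT
    omega

theorem main : ∃ w : ℕ → Fin 3, ∀ i n : ℕ, 3 ≤ n →
    (∀ a : Fin 3,
      ((Finset.range n).filter (fun k => w (i + k) = a)).card =
      ((Finset.range n).filter (fun k => w (i + n + k) = a)).card) →
    n = 3 ∧ ∀ j < 6, w (i + j) = w i := by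
  refine ⟨w, fun i n hn h => ?_⟩
  by_cases h4 : 4 ≤ n
  · exact (long i n h4 h).elim
  · have h3 : n = 3 := by omega
    subst h3
    refine ⟨rfl, ?_⟩
    obtain ⟨hX, hY⟩ := sums i 3 h
    simp only [Finset.sum_range_succ, Finset.sum_range_zero, zero_add, Nat.add_zero,
      add_assoc] at hX hY
    norm_num at hX hY
    have key := all_eq i (by omega) (by omega)
    obtain ⟨k1, k2, k3, k4, k5⟩ := key
    intro j hj
    apply Fin.ext
    change t (i + j) = t i
    have : j = 0 ∨ j = 1 ∨ j = 2 ∨ j = 3 ∨ j = 4 ∨ j = 5 := by omega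
    rcases this with rfl | rfl | rfl | rfl | rfl | rfl
    · rfl
    · exact k1
    · exact k2
    · exact k3
    · exact k4
    · exact k5

end Pool.Agent.T2H15.K3.Three
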